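import Pool.Agent.Y651.LM.Nec

/-! Degrees of the necklace; the iterated logarithm. -/

open scoped Classical

namespace Pool.Agent.Y651.LM

theorem deg : StDeg := by
  intro m L hm hL v
  obtain ⟨i, a⟩ := v
  have ha := a.2
  unfold Deg2
  simp only
  constructor
  · intro h h0
    -- three neighbours
    have hi := i.2
    have hj : ∃ j : Fin m, i.1 + 1 = j.1 ∨ j.1 + 1 = i.1 := by
      by_cases h1 : i.1 + 1 < m
      · exact ⟨⟨i.1 + 1, h1⟩, Or.inl rfl⟩
      · exact ⟨⟨i.1 - 1, by omega⟩, Or.inr (by simp only; omega)⟩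
    obtain ⟨j, hj⟩ := hj
    have hsub : ({(i, ⟨1, by omega⟩), (i, ⟨L - 1, by omega⟩), (j, ⟨0, by omega⟩)} :
        Set (Fin m × Fin L)) ⊆ (necklace m L).neighborSet (i, a) := by
      intro q hq
      simp only [Set.mem_insert_iff, Set.mem_singleton_iff] at hq
      rw [SimpleGraph.mem_neighborSet, necklace_adj hL]
      rcases hq with rfl | rfl | rfl
      · left; refine ⟨rfl, ?_⟩; unfold cyc; simp only; omega
      · left; refine ⟨rfl, ?_⟩; unfold cyc; simp only; omega
      · right; exact ⟨h0, rfl, hj⟩
    have hcard := Set.ncard_le_ncard hsub (Set.toFinite _)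
    have h3 : ({(i, ⟨1, by omega⟩), (i, ⟨L - 1, by omega⟩), (j, ⟨0, by omega⟩)} :
        Set (Fin m × Fin L)).ncard = 3 := by
      rw [Set.ncard_eq_three]
      refine ⟨_, _, _, ?_, ?_, ?_, rfl⟩
      · intro e; simp only [Prod.mk.injEq, Fin.mk.injEq] at e; omega
      · intro e; simp only [Prod.mk.injEq, Fin.mk.injEq] at e; omega
      · intro e; simp only [Prod.mk.injEq, Fin.mk.injEq] at e; omega
    omega
  · intro h0
    have hset : (necklace m L).neighborSet (i, a) =
        {(i, ⟨a.1 - 1, by omega⟩), (i, if h : a.1 + 1 < L then ⟨a.1 + 1, h⟩ else ⟨0, by omega⟩)} := by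
      ext q
      obtain ⟨j, b⟩ := q
      have hb := b.2
      rw [SimpleGraph.mem_neighborSet, necklace_adj hL]
      simp only [Set.mem_insert_iff, Set.mem_singleton_iff, Prod.mk.injEq, cyc, Fin.ext_iff]
      split_ifs with h1
      · simp only; omega
      · simp only; omega
    rw [hset, Set.ncard_pair]
    intro e
    simp only [Prod.mk.injEq, true_and, Fin.ext_iff] at e
    split_ifs at e with h1
    · simp only at e; omega
    · simp only at e; omega

theorem logStar_le : ∀ k : ℕ, logStar k ≤ k := by
  intro k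
  induction k using Nat.strong_induction_on with
  | _ k ih =>
    rw [logStar]
    split_ifs with h
    · omega
    · have h1 : Nat.log 2 k < k := Nat.log_lt_self 2 (by omega)
      have := ih _ h1
      omega

theorem logStarBound : StLogStar := by
  have h1 : ∀ k, logStar k ≤ 1 + Nat.log 2 k := by
    intro k
    rw [logStar]
    split_ifs with h
    · omega
    · have := logStar_le (Nat.log 2 k); omega
  intro n
  rw [logStar]
  split_ifs with h
  · omega
  · have := h1 (Nat.log 2 n); omega

end Pool.Agent.Y651.LM
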