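import Pool.Agent.Y651.LM.Nec

/-! Connectedness, degrees and growth of the necklace. -/

open scoped Classical

namespace Pool.Agent.Y651.LM

lemma R_trans {V : Type} {G : SimpleGraph V} {u v w : V} {k l : ℕ} (h : R G u k v) (h' : R G v l w) :
    R G u (k + l) w := by
  obtain ⟨p, hp⟩ := h
  obtain ⟨q, hq⟩ := h'
  exact ⟨p.append q, by rw [SimpleGraph.Walk.length_append, hp, hq]⟩

theorem conn {m L : ℕ} (hm : 2 ≤ m) (hL : 4 ≤ L) : (necklace m L).Connected := by
  have h1 : ∀ (i : Fin m) (a : ℕ) (ha : a < L), (necklace m L).Reachable (i, ⟨a, ha⟩)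
      (i, ⟨0, by omega⟩) := by
    intro i a
    induction a with
    | zero => intro ha; exact SimpleGraph.Reachable.refl _
    | succ a ih =>
      intro ha
      refine SimpleGraph.Reachable.trans (SimpleGraph.Adj.reachable ?_) (ih (by omega))
      rw [necklace_adj hL]
      exact Or.inl ⟨rfl, Or.inr (Or.inl rfl)⟩
  have h2 : ∀ (i : ℕ) (hi : i < m), (necklace m L).Reachable (⟨i, hi⟩, ⟨0, by omega⟩)
      (⟨0, by omega⟩, ⟨0, by omega⟩) := by
    intro i
    induction i with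
    | zero => intro hi; exact SimpleGraph.Reachable.refl _
    | succ i ih =>
      intro hi
      refine SimpleGraph.Reachable.trans (SimpleGraph.Adj.reachable ?_) (ih (by omega))
      rw [necklace_adj hL]
      exact Or.inr ⟨rfl, rfl, Or.inr rfl⟩
  have : Nonempty (Fin m × Fin L) := ⟨(⟨0, by omega⟩, ⟨0, by omega⟩)⟩
  refine SimpleGraph.Connected.mk ?_
  intro p q
  obtain ⟨i, a⟩ := p
  obtain ⟨j, b⟩ := q
  have e1 := (h1 i a.1 a.2).trans (h2 i.1 i.2)
  have e2 := (h1 j b.1 b.2).trans (h2 j.1 j.2)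
  exact e1.trans e2.symm

theorem degree_le {m L : ℕ} (hL : 4 ≤ L) (v : Fin m × Fin L) :
    ((necklace m L).neighborSet v).ncard ≤ 4 := by
  obtain ⟨i, a⟩ := v
  have ha := a.2
  have hi := i.2
  set S : Set (Fin m × Fin L) := {(i, if h : a.1 + 1 < L then ⟨a.1 + 1, h⟩ else ⟨0, by omega⟩),
    (i, if h : a.1 = 0 then ⟨L - 1, by omega⟩ else ⟨a.1 - 1, by omega⟩),
    (if h : i.1 + 1 < m then ⟨i.1 + 1, h⟩ else i, a), (⟨i.1 - 1, by omega⟩, a)} with hS
  have hsub : (necklace m L).neighborSet (i, a) ⊆ S := by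
    intro q hq
    obtain ⟨j, b⟩ := q
    have hb := b.2
    have hj := j.2
    rw [SimpleGraph.mem_neighborSet, necklace_adj hL] at hq
    simp only [hS, Set.mem_insert_iff, Set.mem_singleton_iff, Prod.mk.injEq, cyc, Fin.ext_iff] at hq ⊢
    split_ifs with h1 h2 h3 h3 <;> simp only <;> omega
  refine (Set.ncard_le_ncard hsub (Set.toFinite _)).trans ?_
  rw [hS]
  refine (Set.ncard_insert_le _ _).trans ?_
  refine Nat.succ_le_succ ((Set.ncard_insert_le _ _).trans ?_)
  refine Nat.succ_le_succ ((Set.ncard_insert_le _ _).trans ?_)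
  rw [Set.ncard_singleton]

lemma R_growth {m L : ℕ} (hL : 4 ≤ L) (v : Fin m × Fin L) : ∀ k q, R (necklace m L) v k q →
    (v.1.1 ≤ q.1.1 + k ∧ q.1.1 ≤ v.1.1 + k) ∧
    (q.2.1 ≤ k ∨ L ≤ q.2.1 + k ∨ (v.2.1 ≤ q.2.1 + k ∧ q.2.1 ≤ v.2.1 + k) ∨ v.2.1 + L ≤ q.2.1 + k ∨
      q.2.1 + L ≤ v.2.1 + k) := by
  intro k
  induction k with
  | zero => intro q h; rw [R_zero] at h; subst h; simp
  | succ k ih =>
    intro q h
    obtain ⟨w, hw, ha⟩ := R_succ.1 h
    obtain ⟨e1, e2⟩ := ih w hw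
    rw [necklace_adj hL] at ha
    obtain ⟨i, a⟩ := v
    obtain ⟨j, b⟩ := w
    obtain ⟨l, c⟩ := q
    simp only [cyc, Fin.ext_iff] at *
    have := a.2
    have := b.2
    have := c.2
    omega

theorem growth {m L : ℕ} (hL : 4 ≤ L) (v : Fin m × Fin L) (r : ℕ) :
    (ball (necklace m L) v r).ncard ≤ 12 * (r + 1) ^ 2 := by
  set I : Finset ℕ := Finset.Icc (v.1.1 - r) (v.1.1 + r) with hI
  set B : Finset ℕ := Finset.range (r + 1) ∪ Finset.Ico (L - r) L ∪ Finset.Icc (v.2.1 - r) (v.2.1 + r) ∪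
    Finset.Ico (v.2.1 + L - r) L ∪ Finset.range (v.2.1 + r + 1 - L) with hB
  have hv := v.2.2
  have hIc : I.card ≤ 2 * r + 1 := by rw [hI, Nat.card_Icc]; omega
  have hBc : B.card ≤ 6 * r + 4 := by
    rw [hB]
    refine (Finset.card_union_le _ _).trans ?_
    have h1 := Finset.card_union_le (Finset.range (r + 1) ∪ Finset.Ico (L - r) L ∪
      Finset.Icc (v.2.1 - r) (v.2.1 + r)) (Finset.Ico (v.2.1 + L - r) L)
    have h2 := Finset.card_union_le (Finset.range (r + 1) ∪ Finset.Ico (L - r) L)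
      (Finset.Icc (v.2.1 - r) (v.2.1 + r))
    have h3 := Finset.card_union_le (Finset.range (r + 1)) (Finset.Ico (L - r) L)
    rw [Finset.card_range, Nat.card_Ico] at h3
    rw [Nat.card_Icc] at h2
    rw [Nat.card_Ico] at h1
    rw [Finset.card_range]
    omega
  have hinj : Set.InjOn (fun q : Fin m × Fin L => (q.1.1, q.2.1)) (ball (necklace m L) v r) := by
    intro p _ q _ e
    simp only [Prod.mk.injEq] at e
    ext
    · exact e.1
    · exact e.2
  have hmaps : ∀ q ∈ ball (necklace m L) v r, (fun q : Fin m × Fin L => (q.1.1, q.2.1)) q ∈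
      ((I ×ˢ B : Finset (ℕ × ℕ)) : Set (ℕ × ℕ)) := by
    intro q hq
    obtain ⟨k, hk, h⟩ := mem_ball.1 hq
    obtain ⟨⟨e1, e2⟩, e3⟩ := R_growth hL v k q h
    have hq2 := q.2.2
    simp only [Finset.coe_product, Set.mem_prod, Finset.mem_coe, hI, hB, Finset.mem_union,
      Finset.mem_Icc, Finset.mem_Ico, Finset.mem_range]
    omega
  have h := Set.ncard_le_ncard_of_injOn _ hmaps hinj (Finset.finite_toSet _)
  rw [Set.ncard_coe_finset, Finset.card_product] at h
  refine h.trans ?_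
  calc I.card * B.card ≤ (2 * r + 1) * (6 * r + 4) := Nat.mul_le_mul hIc hBc
    _ ≤ 12 * (r + 1) ^ 2 := by nlinarith

theorem geo : StGeo := fun _ _ hm hL => ⟨conn hm hL, degree_le hL, growth hL⟩

end Pool.Agent.Y651.LM
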