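import Pool.Agent.Y651.LM.Stm

/-! The sequences of coins of different vertices are different almost surely. -/

open scoped Classical ENNReal
open MeasureTheory Filter

namespace Pool.Agent.Y651.LM

lemma coin_singleton (b : Bool) : coin {b} = 2⁻¹ := by
  unfold coin
  rw [PMF.toMeasure_apply_singleton _ _ (measurableSet_singleton b)]
  simp

lemma tie_two (n : ℕ) (u v : Fin n) (huv : u ≠ v) : bits n {w | ∀ k, w (u, k) = w (v, k)} = 0 := by
  have hK : ∀ K : ℕ, bits n {w | ∀ k, w (u, k) = w (v, k)} ≤ (2⁻¹ : ℝ≥0∞) ^ K := by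
    intro K
    set s : Finset (Fin n × ℕ) := ({u, v} : Finset (Fin n)) ×ˢ Finset.range K with hs
    let tb : (Fin K → Bool) → Fin n × ℕ → Set Bool := fun b p =>
      if h : p.2 < K then {b ⟨p.2, h⟩} else Set.univ
    have hsub : {w : Fin n × ℕ → Bool | ∀ k, w (u, k) = w (v, k)} ⊆
        ⋃ b : Fin K → Bool, Set.pi s (tb b) := by
      intro w hw
      rw [Set.mem_iUnion]
      refine ⟨fun k => w (u, k.1), ?_⟩
      rintro ⟨p, k⟩ hp
      rw [hs] at hp
      simp only [Finset.coe_product, Finset.coe_insert, Finset.coe_singleton, Finset.coe_range,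
        Set.mem_prod, Set.mem_insert_iff, Set.mem_singleton_iff, Set.mem_Iio] at hp
      simp only [tb]
      rw [dif_pos hp.2]
      rcases hp.1 with rfl | rfl
      · rfl
      · exact (hw k).symm
    have hbox : ∀ b : Fin K → Bool, bits n (Set.pi s (tb b)) = (2⁻¹ : ℝ≥0∞) ^ (2 * K) := by
      intro b
      unfold bits
      rw [Measure.infinitePi_pi]
      · have h1 : ∀ p ∈ s, coin (tb b p) = 2⁻¹ := by
          rintro ⟨p, k⟩ hp
          rw [hs, Finset.mem_product, Finset.mem_range] at hp
          simp only [tb]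
          rw [dif_pos hp.2, coin_singleton]
        rw [Finset.prod_congr rfl h1, Finset.prod_const, hs, Finset.card_product,
          Finset.card_pair huv, Finset.card_range]
      · intro p _
        exact MeasurableSet.of_discrete
    calc bits n {w | ∀ k, w (u, k) = w (v, k)} ≤ bits n (⋃ b : Fin K → Bool, Set.pi s (tb b)) :=
          measure_mono hsub
      _ ≤ ∑ b : Fin K → Bool, bits n (Set.pi s (tb b)) := measure_iUnion_fintype_le _ _
      _ = 2 ^ K * (2⁻¹ : ℝ≥0∞) ^ (2 * K) := by
          rw [Finset.sum_congr rfl fun b _ => hbox b, Finset.sum_const, Finset.card_univ]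
          simp
      _ = (2⁻¹ : ℝ≥0∞) ^ K := by
          rw [two_mul, pow_add, ← mul_assoc, ← mul_pow, ENNReal.mul_inv_cancel (by norm_num)
            (by norm_num), one_pow, one_mul]
  refine le_antisymm ?_ bot_le
  exact ge_of_tendsto' (ENNReal.tendsto_pow_atTop_nhds_zero_of_lt_one (by
    rw [ENNReal.inv_lt_one]; norm_num)) hK

theorem tie : StTie := by
  intro n
  have hsub : {w : Fin n × ℕ → Bool | ¬ Function.Injective fun (u : Fin n) (k : ℕ) => w (u, k)} ⊆
      ⋃ u : Fin n, ⋃ v : Fin n, ⋃ _ : u ≠ v, {w | ∀ k, w (u, k) = w (v, k)} := by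
    intro w hw
    simp only [Set.mem_ofPred_eq, Function.Injective, not_forall] at hw
    obtain ⟨u, v, e, hne⟩ := hw
    simp only [Set.mem_iUnion]
    exact ⟨u, v, hne, fun k => congrFun e k⟩
  refine measure_mono_null hsub ?_
  refine measure_iUnion_null fun u => measure_iUnion_null fun v => measure_iUnion_null fun h => ?_
  exact tie_two n u v h

end Pool.Agent.Y651.LM
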