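import Mathlib

/-!
# The LOCAL model, locally checkable labelling problems, and a class of graphs

Definitions for `MP_e442af_lc`.
-/

open scoped Classical
open MeasureTheory

namespace Pool.Agent.Y651.LM

variable {V W X : Type} {L : Type}

/-- the ball of radius `t` around `v` -/
def ball (G : SimpleGraph V) (v : V) (t : ℕ) : Set V := {u | ∃ p : G.Walk v u, p.length ≤ t}

/-- `φ` is an isomorphism from the ball of radius `t` around `v`, with the labels `x`, to the ball of
radius `t` around `v'`, with the labels `x'` (the graphs induced on the balls, the centres and the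
labels correspond to each other) -/
structure SameView (G : SimpleGraph V) (x : V → L) (v : V) (G' : SimpleGraph W) (x' : W → L) (v' : W)
    (t : ℕ) (φ : V → W) : Prop where
  root : φ v = v'
  bij : Set.BijOn φ (ball G v t) (ball G' v' t)
  adj : ∀ a ∈ ball G v t, ∀ b ∈ ball G v t, (G.Adj a b ↔ G'.Adj (φ a) (φ b))
  lab : ∀ a ∈ ball G v t, x' (φ a) = x a

/-- an LCL problem: a finite set of outputs, a radius and the set of allowed labelled balls, i.e. a
property of labelled graphs with a marked vertex that depends on the labelled ball only -/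
structure LCL where
  Out : Type
  fin : Finite Out
  radius : ℕ
  allowed : ∀ n : ℕ, SimpleGraph (Fin n) → (Fin n → Out) → Fin n → Prop
  isLocal : ∀ (n m : ℕ) (G : SimpleGraph (Fin n)) (G' : SimpleGraph (Fin m)) (s : Fin n → Out)
    (s' : Fin m → Out) (v : Fin n) (v' : Fin m) (φ : Fin n → Fin m),
    SameView G s v G' s' v' radius φ → (allowed n G s v ↔ allowed m G' s' v')

/-- a class of finite graphs; the vertices of a graph with `n` vertices are `0, …, n-1` -/
abbrev GraphClass := ∀ n : ℕ, Set (SimpleGraph (Fin n))

/-- identifiers: an injective labelling with elements of `{1, …, n ^ c}` -/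
def ValidId (n c : ℕ) (x : Fin n → ℕ) : Prop :=
  Function.Injective x ∧ ∀ v, 1 ≤ x v ∧ x v ≤ n ^ c

/-- on the class `F`, the problem `P` is solved by a deterministic LOCAL algorithm of complexity `t`
with identifiers from `{1, …, n ^ c}`: the output of a vertex of a graph with `n` vertices is a
function of its ball of radius `t n` and the identifiers on it, and the output is a solution for every
labelling by identifiers -/
def DetSolves (F : GraphClass) (P : LCL) (c : ℕ) (t : ℕ → ℕ) : Prop :=
  ∃ A : ∀ n : ℕ, SimpleGraph (Fin n) → (Fin n → ℕ) → Fin n → P.Out,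
    (∀ (n : ℕ) (G G' : SimpleGraph (Fin n)) (x x' : Fin n → ℕ) (v v' : Fin n) (φ : Fin n → Fin n),
      G ∈ F n → G' ∈ F n → ValidId n c x → ValidId n c x' →
      SameView G x v G' x' v' (t n) φ → A n G x v = A n G' x' v') ∧
    ∀ (n : ℕ) (G : SimpleGraph (Fin n)) (x : Fin n → ℕ), G ∈ F n → ValidId n c x →
      ∀ v, P.allowed n G (A n G x) v

/-- a fair coin -/
noncomputable def coin : Measure Bool := (PMF.uniformOfFintype Bool).toMeasure

instance : IsProbabilityMeasure coin := by unfold coin; infer_instance

/-- independent infinite sequences of fair coins, one for each of the `n` vertices -/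
noncomputable def bits (n : ℕ) : Measure (Fin n × ℕ → Bool) := Measure.infinitePi fun _ => coin

/-- on the class `F`, the problem `P` is solved by a randomized LOCAL algorithm of complexity `t` with
probability at least `1 - n ^ (-d)`: the output of a vertex is a function of its ball of radius `t n`
and the sequences of random bits on it -/
def RandSolves (F : GraphClass) (P : LCL) (d : ℕ) (t : ℕ → ℕ) : Prop :=
  ∃ A : ∀ n : ℕ, SimpleGraph (Fin n) → (Fin n → ℕ → Bool) → Fin n → P.Out,
    (∀ (n : ℕ) (G G' : SimpleGraph (Fin n)) (x x' : Fin n → ℕ → Bool) (v v' : Fin n)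
      (φ : Fin n → Fin n), SameView G x v G' x' v' (t n) φ → A n G x v = A n G' x' v') ∧
    ∀ (n : ℕ) (G : SimpleGraph (Fin n)), G ∈ F n →
      bits n {w | ¬ ∀ v, P.allowed n G (A n G fun u k => w (u, k)) v} ≤ ENNReal.ofReal ((n : ℝ) ^ (-(d : ℝ)))

/-- the iterated logarithm -/
def logStar : ℕ → ℕ
  | n => if h : n ≤ 1 then 0 else 1 + logStar (Nat.log 2 n)
termination_by n => n
decreasing_by exact Nat.log_lt_self 2 (by omega)

/-- `a` and `b` are neighbours on the cycle `0, 1, …, L-1` -/
def cyc (L a b : ℕ) : Prop :=
  a + 1 = b ∨ b + 1 = a ∨ (a = 0 ∧ b + 1 = L) ∨ (b = 0 ∧ a + 1 = L)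

/-- `m` cycles of length `L`, the vertices `0` of consecutive cycles being joined by an edge -/
def necklace (m L : ℕ) : SimpleGraph (Fin m × Fin L) :=
  SimpleGraph.fromRel fun p q =>
    (p.1 = q.1 ∧ cyc L p.2.1 q.2.1) ∨ (p.2.1 = 0 ∧ q.2.1 = 0 ∧ p.1.1 + 1 = q.1.1)

/-- the class of graphs: `m ≥ 2` cycles of the same even length `L ≥ 4` on a string, where `L` is at
most the logarithm of the number `m * L` of vertices -/
def strings : GraphClass := fun n => {G | ∃ m L : ℕ, 2 ≤ m ∧ 4 ≤ L ∧ Even L ∧ m * L = n ∧ 2 ^ L ≤ n ∧
  Nonempty (G ≃g necklace m L)}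

/-- `v` has exactly two neighbours -/
def Deg2 (G : SimpleGraph V) (v : V) : Prop := (G.neighborSet v).ncard = 2

/-- the ends of an edge have different colours if one of the ends has degree two -/
def allowed2 (G : SimpleGraph V) (s : V → Bool) (v : V) : Prop :=
  ∀ u, G.Adj v u → (Deg2 G v ∨ Deg2 G u) → s v ≠ s u

end Pool.Agent.Y651.LM
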