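import Pool.Agent.Y651.LM.Defs

/-! Walks, locality of the algorithm and of the problem. -/

open scoped Classical

namespace Pool.Agent.Y651.LM

variable {V W : Type} {Λ : Type}

/-- there is a walk of length `k` -/
def R (G : SimpleGraph V) (v : V) (k : ℕ) (u : V) : Prop := ∃ p : G.Walk v u, p.length = k

lemma R_zero {G : SimpleGraph V} {v u : V} : R G v 0 u ↔ v = u := by
  constructor
  · rintro ⟨p, hp⟩; exact SimpleGraph.Walk.eq_of_length_eq_zero hp
  · rintro rfl; exact ⟨.nil, rfl⟩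

lemma R_succ {G : SimpleGraph V} {v u : V} {k : ℕ} :
    R G v (k + 1) u ↔ ∃ w, R G v k w ∧ G.Adj w u := by
  constructor
  · rintro ⟨p, hp⟩
    cases p with
    | nil => simp at hp
    | cons h q =>
      obtain ⟨x, q', h', e⟩ := SimpleGraph.Walk.exists_cons_eq_concat h q
      rw [e, SimpleGraph.Walk.length_concat] at hp
      exact ⟨x, ⟨q', by omega⟩, h'⟩
  · rintro ⟨w, ⟨p, hp⟩, h⟩
    exact ⟨p.concat h, by rw [SimpleGraph.Walk.length_concat, hp]⟩

lemma R_one {G : SimpleGraph V} {v u : V} : R G v 1 u ↔ G.Adj v u := by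
  rw [R_succ]
  constructor
  · rintro ⟨w, hw, h⟩; rw [R_zero] at hw; subst hw; exact h
  · intro h; exact ⟨v, R_zero.2 rfl, h⟩

lemma mem_ball {G : SimpleGraph V} {v u : V} {t : ℕ} : u ∈ ball G v t ↔ ∃ k ≤ t, R G v k u := by
  constructor
  · rintro ⟨p, hp⟩; exact ⟨_, hp, p, rfl⟩
  · rintro ⟨k, hk, p, rfl⟩; exact ⟨p, hk⟩

lemma SameView.map {G : SimpleGraph V} {x : V → Λ} {v : V} {G' : SimpleGraph W} {x' : W → Λ} {v' : W}
    {t : ℕ} {φ : V → W} (hS : SameView G x v G' x' v' t φ) :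
    ∀ k, k ≤ t → ∀ u, R G v k u → R G' v' k (φ u) := by
  intro k
  induction k with
  | zero => intro _ u hu; rw [R_zero] at hu; subst hu; exact R_zero.2 hS.root.symm
  | succ k ih =>
    intro hk u hu
    obtain ⟨w, hw, ha⟩ := R_succ.1 hu
    exact R_succ.2 ⟨φ w, ih (by omega) w hw,
      (hS.adj w (mem_ball.2 ⟨k, by omega, hw⟩) u (mem_ball.2 ⟨k + 1, hk, hu⟩)).1 ha⟩

lemma SameView.lift {G : SimpleGraph V} {x : V → Λ} {v : V} {G' : SimpleGraph W} {x' : W → Λ} {v' : W}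
    {t : ℕ} {φ : V → W} (hS : SameView G x v G' x' v' t φ) :
    ∀ k, k ≤ t → ∀ u', R G' v' k u' → ∃ u, φ u = u' ∧ R G v k u := by
  intro k
  induction k with
  | zero => intro _ u hu; rw [R_zero] at hu; subst hu; exact ⟨v, hS.root, R_zero.2 rfl⟩
  | succ k ih =>
    intro hk u' hu
    obtain ⟨w', hw', ha⟩ := R_succ.1 hu
    obtain ⟨w, rfl, hw⟩ := ih (by omega) w' hw'
    obtain ⟨u, hub, rfl⟩ := hS.bij.surjOn (mem_ball.2 ⟨k + 1, hk, hu⟩)
    exact ⟨u, rfl, R_succ.2 ⟨w, hw, (hS.adj w (mem_ball.2 ⟨k, by omega, hw⟩) u hub).2 ha⟩⟩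

lemma SameView.deg2 {G : SimpleGraph V} {x : V → Λ} {v : V} {G' : SimpleGraph W} {x' : W → Λ} {v' : W}
    {t : ℕ} {φ : V → W} (hS : SameView G x v G' x' v' t φ) {k : ℕ} (hk : k + 1 ≤ t) {a : V}
    (ha : R G v k a) : Deg2 G a ↔ Deg2 G' (φ a) := by
  have hab : a ∈ ball G v t := mem_ball.2 ⟨k, by omega, ha⟩
  have himg : G'.neighborSet (φ a) = φ '' G.neighborSet a := by
    ext b'
    simp only [SimpleGraph.mem_neighborSet, Set.mem_image]
    constructor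
    · intro h
      have h1 : R G' v' (k + 1) b' := R_succ.2 ⟨_, hS.map k (by omega) a ha, h⟩
      obtain ⟨b, hb, rfl⟩ := hS.bij.surjOn (mem_ball.2 ⟨k + 1, hk, h1⟩)
      exact ⟨b, (hS.adj a hab b hb).2 h, rfl⟩
    · rintro ⟨b, hb, rfl⟩
      exact (hS.adj a hab b (mem_ball.2 ⟨k + 1, hk, R_succ.2 ⟨a, ha, hb⟩⟩)).1 hb
  unfold Deg2
  rw [himg, Set.InjOn.ncard_image]
  intro b hb c hc e
  exact hS.bij.injOn (mem_ball.2 ⟨k + 1, hk, R_succ.2 ⟨a, ha, hb⟩⟩)
    (mem_ball.2 ⟨k + 1, hk, R_succ.2 ⟨a, ha, hc⟩⟩) e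

/-- the graph of the edges with an end of degree two -/
def sub (G : SimpleGraph V) : SimpleGraph V where
  Adj a b := G.Adj a b ∧ (Deg2 G a ∨ Deg2 G b)
  symm := ⟨fun _ _ h => ⟨h.1.symm, h.2.symm⟩⟩
  loopless := ⟨fun _ h => G.irrefl h.1⟩

lemma R_sub {G : SimpleGraph V} {v : V} : ∀ k u, R (sub G) v k u → R G v k u := by
  intro k
  induction k with
  | zero => intro u hu; rw [R_zero] at *; exact hu
  | succ k ih =>
    intro u hu
    obtain ⟨w, hw, ha⟩ := R_succ.1 hu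
    exact R_succ.2 ⟨w, ih w hw, ha.1⟩

lemma SameView.mapSub {G : SimpleGraph V} {x : V → Λ} {v : V} {G' : SimpleGraph W} {x' : W → Λ}
    {v' : W} {t : ℕ} {φ : V → W} (hS : SameView G x v G' x' v' t φ) :
    ∀ k, k + 1 ≤ t → ∀ u, R (sub G) v k u → R (sub G') v' k (φ u) := by
  intro k
  induction k with
  | zero => intro _ u hu; rw [R_zero] at hu; subst hu; exact R_zero.2 hS.root.symm
  | succ k ih =>
    intro hk u hu
    obtain ⟨w, hw, ha⟩ := R_succ.1 hu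
    have hw' := R_sub k w hw
    have hu' := R_sub _ u hu
    refine R_succ.2 ⟨φ w, ih (by omega) w hw, ?_, ?_⟩
    · exact (hS.adj w (mem_ball.2 ⟨k, by omega, hw'⟩) u (mem_ball.2 ⟨k + 1, by omega, hu'⟩)).1 ha.1
    · rw [← hS.deg2 (by omega) hw', ← hS.deg2 (by omega) hu']; exact ha.2

lemma SameView.liftSub {G : SimpleGraph V} {x : V → Λ} {v : V} {G' : SimpleGraph W} {x' : W → Λ}
    {v' : W} {t : ℕ} {φ : V → W} (hS : SameView G x v G' x' v' t φ) :
    ∀ k, k + 1 ≤ t → ∀ u', R (sub G') v' k u' → ∃ u, φ u = u' ∧ R (sub G) v k u := by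
  intro k
  induction k with
  | zero => intro _ u hu; rw [R_zero] at hu; subst hu; exact ⟨v, hS.root, R_zero.2 rfl⟩
  | succ k ih =>
    intro hk u' hu
    obtain ⟨w', hw', ha⟩ := R_succ.1 hu
    obtain ⟨w, rfl, hw⟩ := ih (by omega) w' hw'
    obtain ⟨u, hub, rfl⟩ := hS.bij.surjOn (mem_ball.2 ⟨k + 1, by omega, R_sub _ _ hu⟩)
    have hwG := R_sub k w hw
    have hadj : G.Adj w u := (hS.adj w (mem_ball.2 ⟨k, by omega, hwG⟩) u hub).2 ha.1
    have huG : R G v (k + 1) u := R_succ.2 ⟨w, hwG, hadj⟩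
    refine ⟨u, rfl, R_succ.2 ⟨w, hw, hadj, ?_⟩⟩
    rw [hS.deg2 (by omega) hwG, hS.deg2 (by omega) huG]; exact ha.2

/-- the algorithm: the parity of the distance to the smallest label -/
noncomputable def alg [LinearOrder Λ] (s : ℕ) (G : SimpleGraph V) (x : V → Λ) (v : V) : Bool :=
  decide (∃ u, (∃ k, k ≤ s ∧ Even k ∧ R (sub G) v k u) ∧
    ∀ w, (∃ j, j ≤ s ∧ R (sub G) v j w) → x u ≤ x w)

theorem alg_local [LinearOrder Λ] {G : SimpleGraph V} {x : V → Λ} {v : V} {G' : SimpleGraph W}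
    {x' : W → Λ} {v' : W} {s : ℕ} {φ : V → W} (hS : SameView G x v G' x' v' (s + 1) φ) :
    alg s G x v = alg s G' x' v' := by
  unfold alg
  rw [decide_eq_decide]
  have hlab : ∀ j u, j ≤ s → R (sub G) v j u → x' (φ u) = x u := fun j u hj hu =>
    hS.lab u (mem_ball.2 ⟨j, by omega, R_sub j u hu⟩)
  constructor
  · rintro ⟨u, ⟨k, hk, he, hu⟩, hmin⟩
    refine ⟨φ u, ⟨k, hk, he, hS.mapSub k (by omega) u hu⟩, ?_⟩
    rintro w' ⟨j, hj, hw'⟩
    obtain ⟨w, rfl, hw⟩ := hS.liftSub j (by omega) w' hw'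
    rw [hlab k u hk hu, hlab j w hj hw]
    exact hmin w ⟨j, hj, hw⟩
  · rintro ⟨u', ⟨k, hk, he, hu'⟩, hmin⟩
    obtain ⟨u, rfl, hu⟩ := hS.liftSub k (by omega) u' hu'
    refine ⟨u, ⟨k, hk, he, hu⟩, ?_⟩
    rintro w ⟨j, hj, hw⟩
    rw [← hlab k u hk hu, ← hlab j w hj hw]
    exact hmin _ ⟨j, hj, hS.mapSub j (by omega) w hw⟩

theorem allowed2_local {G : SimpleGraph V} {x : V → Bool} {v : V} {G' : SimpleGraph W}
    {x' : W → Bool} {v' : W} {φ : V → W} (hS : SameView G x v G' x' v' 2 φ) :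
    allowed2 G x v ↔ allowed2 G' x' v' := by
  have h0 : R G v 0 v := R_zero.2 rfl
  have hv : Deg2 G v ↔ Deg2 G' v' := by rw [hS.deg2 (by omega) h0, hS.root]
  have hxv : x' v' = x v := by
    have := hS.lab v (mem_ball.2 ⟨0, by omega, h0⟩)
    rwa [hS.root] at this
  constructor
  · intro h u' hu' hd
    obtain ⟨u, rfl, hu⟩ := hS.lift 1 (by omega) u' (R_one.2 hu')
    rw [← hv, ← hS.deg2 (by omega) hu] at hd
    rw [hxv, hS.lab u (mem_ball.2 ⟨1, by omega, hu⟩)]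
    exact h u (R_one.1 hu) hd
  · intro h u hu hd
    have hu1 : R G v 1 u := R_one.2 hu
    rw [hv, hS.deg2 (by omega) hu1] at hd
    rw [← hxv, ← hS.lab u (mem_ball.2 ⟨1, by omega, hu1⟩)]
    exact h _ (R_one.1 (hS.map 1 (by omega) u hu1)) hd

lemma R_iso {G : SimpleGraph V} {G' : SimpleGraph W} (e : G ≃g G') {v u : V} {k : ℕ}
    (h : R G v k u) : R G' (e v) k (e u) := by
  obtain ⟨p, hp⟩ := h
  exact ⟨p.map e.toHom, by rw [SimpleGraph.Walk.length_map]; exact hp⟩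

theorem sameView_iso {G : SimpleGraph V} {G' : SimpleGraph W} (e : G ≃g G') (x : V → Λ) (v : V)
    (t : ℕ) : SameView G x v G' (x ∘ e.symm) (e v) t e where
  root := rfl
  bij := by
    refine ⟨?_, e.injective.injOn, ?_⟩
    · intro u hu
      obtain ⟨k, hk, h⟩ := mem_ball.1 hu
      exact mem_ball.2 ⟨k, hk, R_iso e h⟩
    · intro u hu
      obtain ⟨k, hk, h⟩ := mem_ball.1 hu
      refine ⟨e.symm u, mem_ball.2 ⟨k, hk, ?_⟩, by simp⟩
      have := R_iso e.symm h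
      simpa using this
  adj := fun a _ b _ => e.map_adj_iff.symm
  lab := fun a _ => by simp

/-- the problem -/
noncomputable def colouring : LCL where
  Out := Bool
  fin := inferInstance
  radius := 2
  allowed := fun _ G s v => allowed2 G s v
  isLocal := fun _ _ _ _ _ _ _ _ _ h => allowed2_local h

end Pool.Agent.Y651.LM
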