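import Pool.Agent.Y651.LM.Nec

/-! The lower bound. -/

open scoped Classical

namespace Pool.Agent.Y651.LM

/-- walks from a vertex far away from the vertex `0` of its cycle -/
lemma R_far {m L : ℕ} (hL : 4 ≤ L) {i : Fin m} {p : Fin L} {s : ℕ} (h1 : s < p.1)
    (h2 : p.1 + s + 1 < L) : ∀ k, k ≤ s → ∀ q, R (necklace m L) (i, p) k q →
      q.1 = i ∧ p.1 ≤ q.2.1 + k ∧ q.2.1 ≤ p.1 + k := by
  intro k
  induction k with
  | zero => intro _ q h; rw [R_zero] at h; subst h; simp
  | succ k ih =>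
    intro hk q h
    obtain ⟨w, hw, ha⟩ := R_succ.1 h
    obtain ⟨e1, e2, e3⟩ := ih (by omega) w hw
    rw [necklace_adj hL] at ha
    rcases ha with ⟨h3, h4⟩ | ⟨h3, -, -⟩
    · refine ⟨h3 ▸ e1, ?_⟩
      unfold cyc at h4
      omega
    · omega

lemma R_near {m L : ℕ} (hL : 4 ≤ L) (i : Fin m) (a : ℕ) (ha : a < L) :
    ∀ k (h : a + k < L), R (necklace m L) (i, ⟨a, ha⟩) k (i, ⟨a + k, h⟩) ∧
      R (necklace m L) (i, ⟨a + k, h⟩) k (i, ⟨a, ha⟩) := by
  intro k
  induction k with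
  | zero => intro h; exact ⟨R_zero.2 rfl, R_zero.2 rfl⟩
  | succ k ih =>
    intro h
    obtain ⟨h1, h2⟩ := ih (by omega)
    have hadj : (necklace m L).Adj (i, ⟨a + k, by omega⟩) (i, ⟨a + (k + 1), h⟩) := by
      rw [necklace_adj hL]; exact Or.inl ⟨rfl, Or.inl rfl⟩
    refine ⟨R_succ.2 ⟨_, h1, hadj⟩, ?_⟩
    obtain ⟨p, hp⟩ := h2
    exact ⟨.cons hadj.symm p, by rw [SimpleGraph.Walk.length_cons, hp]⟩

lemma ball_far {m L : ℕ} (hL : 4 ≤ L) {i : Fin m} {p : Fin L} {s : ℕ} (h1 : s < p.1)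
    (h2 : p.1 + s + 1 < L) (q : Fin m × Fin L) : q ∈ ball (necklace m L) (i, p) s ↔
      q.1 = i ∧ p.1 ≤ q.2.1 + s ∧ q.2.1 ≤ p.1 + s := by
  rw [mem_ball]
  constructor
  · rintro ⟨k, hk, h⟩
    obtain ⟨e1, e2, e3⟩ := R_far hL h1 h2 k hk q h
    exact ⟨e1, by omega, by omega⟩
  · rintro ⟨e1, e2, e3⟩
    obtain ⟨j, b⟩ := q
    obtain rfl : j = i := e1
    simp only at e2 e3
    have hb := b.2
    have hp := p.2
    rcases le_total p.1 b.1 with h | h
    · refine ⟨b.1 - p.1, by omega, ?_⟩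
      have := (R_near (m := m) hL j p.1 p.2 (b.1 - p.1) (by omega)).1
      have e : (⟨p.1 + (b.1 - p.1), by omega⟩ : Fin L) = b := by ext; simp; omega
      rw [e] at this; exact this
    · refine ⟨p.1 - b.1, by omega, ?_⟩
      have := (R_near (m := m) hL j b.1 b.2 (p.1 - b.1) (by omega)).2
      have e : (⟨b.1 + (p.1 - b.1), by omega⟩ : Fin L) = p := by ext; simp; omega
      rw [e] at this; exact this

/-- translation by `d` (on the positions `a` with `a + d < L`) -/
def shiftMap (m L d : ℕ) (q : Fin m × Fin L) : Fin m × Fin L :=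
  if h : q.2.1 + d < L then (q.1, ⟨q.2.1 + d, h⟩) else q

/-- a vertex and its translate have the same view if the labels agree -/
lemma sameView_shift {m L : ℕ} (hL : 4 ≤ L) {i : Fin m} {p p' : Fin L} {s d : ℕ} (h1 : s < p.1)
    (hd : p'.1 = p.1 + d) (h2 : p'.1 + s + 1 < L) {Λ : Type} (x x' : Fin m × Fin L → Λ)
    (hx : ∀ (a : Fin L) (a' : Fin L), p.1 ≤ a.1 + s → a.1 ≤ p.1 + s → a'.1 = a.1 + d →
      x' (i, a') = x (i, a)) :
    SameView (necklace m L) x (i, p) (necklace m L) x' (i, p') s (shiftMap m L d) := by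
  have hb := ball_far hL h1 (by omega : p.1 + s + 1 < L) (i := i)
  have hb' := ball_far hL (by omega : s < p'.1) h2 (i := i)
  refine ⟨?_, ⟨?_, ?_, ?_⟩, ?_, ?_⟩
  · have := p'.2
    unfold shiftMap
    rw [dif_pos (show (i, p).2.1 + d < L by simp only; omega)]
    ext <;> simp [hd]
  · intro q hq
    rw [hb] at hq
    rw [hb']
    unfold shiftMap
    have h : q.2.1 + d < L := by omega
    rw [dif_pos h]
    simp only
    exact ⟨hq.1, by omega, by omega⟩
  · intro q hq r hr e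
    rw [hb] at hq hr
    unfold shiftMap at e
    have h : q.2.1 + d < L := by omega
    have h' : r.2.1 + d < L := by omega
    rw [dif_pos h, dif_pos h'] at e
    simp only [Prod.mk.injEq, Fin.mk.injEq] at e
    ext
    · rw [e.1]
    · omega
  · intro q hq
    rw [hb'] at hq
    have hq2 := q.2.2
    refine ⟨(q.1, ⟨q.2.1 - d, by omega⟩), ?_, ?_⟩
    · rw [hb]; simp only; exact ⟨hq.1, by omega, by omega⟩
    · unfold shiftMap
      rw [dif_pos (show (q.1, (⟨q.2.1 - d, by omega⟩ : Fin L)).2.1 + d < L by simp only; omega)]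
      ext
      · rfl
      · simp only; omega
  · intro q hq r hr
    rw [hb] at hq hr
    unfold shiftMap
    have h : q.2.1 + d < L := by omega
    have h' : r.2.1 + d < L := by omega
    rw [dif_pos h, dif_pos h', necklace_adj hL, necklace_adj hL]
    simp only [cyc]
    rw [hq.1, hr.1]
    constructor
    · rintro (⟨e, h3⟩ | ⟨h3, h4, h5⟩)
      · left; refine ⟨e, ?_⟩; omega
      · omega
    · rintro (⟨e, h3⟩ | ⟨h3, h4, h5⟩)
      · left; refine ⟨e, ?_⟩; omega
      · omega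
  · intro q hq
    rw [hb] at hq
    obtain ⟨j, a⟩ := q
    obtain rfl : j = i := hq.1
    unfold shiftMap
    simp only at hq
    have h : a.1 + d < L := by omega
    rw [dif_pos (show (j, a).2.1 + d < L from h)]
    exact hx a ⟨a.1 + d, h⟩ hq.2.1 hq.2.2 rfl

/-- exchange of the positions: `lo` goes to `hi`, the others of `lo..hi` go down by one -/
def rot (lo hi a : ℕ) : ℕ := if a = lo then hi else if lo < a ∧ a ≤ hi then a - 1 else a

lemma rot_inj {lo hi a b : ℕ} (h : lo ≤ hi) (e : rot lo hi a = rot lo hi b) : a = b := by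
  unfold rot at e
  split_ifs at e <;> omega

lemma rot_lt {lo hi a L : ℕ} (h : hi < L) (ha : a < L) : rot lo hi a < L := by
  unfold rot
  split_ifs <;> omega

/-- the exchange on the cycle `i` -/
def rotMap (m L : ℕ) (i : Fin m) (lo hi : ℕ) (h : hi < L) (q : Fin m × Fin L) : Fin m × Fin L :=
  if q.1 = i then (q.1, ⟨rot lo hi q.2.1, rot_lt h q.2.2⟩) else q

lemma rotMap_inj {m L : ℕ} {i : Fin m} {lo hi : ℕ} (h : hi < L) (hle : lo ≤ hi) :
    Function.Injective (rotMap m L i lo hi h) := by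
  rintro ⟨j, a⟩ ⟨k, b⟩ e
  unfold rotMap at e
  simp only at e
  split_ifs at e with h1 h2 h2
  · simp only [Prod.mk.injEq, Fin.mk.injEq] at e
    ext
    · rw [e.1]
    · exact rot_inj hle e.2
  · simp only [Prod.mk.injEq] at e; exact absurd (e.1 ▸ h1) h2
  · simp only [Prod.mk.injEq] at e; exact absurd (e.1.symm ▸ h2) h1
  · exact e

/-- in a solution, the colours alternate along the cycle, away from the vertex `0` -/
lemma alternate (hdeg : StDeg) {m L : ℕ} (hm : 2 ≤ m) (hL : 4 ≤ L) (σ : Fin m × Fin L → Bool)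
    (hσ : ∀ v, allowed2 (necklace m L) σ v) (i : Fin m) (a : ℕ) (ha : a < L) (ha0 : 1 ≤ a) :
    ∀ k (h : a + k < L), (σ (i, ⟨a + k, h⟩) = σ (i, ⟨a, ha⟩) ↔ Even k) := by
  intro k
  induction k with
  | zero => intro h; simp
  | succ k ih =>
    intro h
    have ih' := ih (by omega)
    have hadj : (necklace m L).Adj (i, ⟨a + k, by omega⟩) (i, ⟨a + (k + 1), h⟩) := by
      rw [necklace_adj hL]; exact Or.inl ⟨rfl, Or.inl rfl⟩
    have hne := hσ _ _ hadj (Or.inl (by rw [hdeg m L hm hL]; simp only; omega))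
    rw [Nat.even_add_one, ← ih']
    constructor
    · intro e1 e2; exact hne (e2.trans e1.symm)
    · intro e1
      cases h1 : σ (i, ⟨a + k, by omega⟩) <;> cases h2 : σ (i, ⟨a + (k + 1), h⟩) <;>
        cases h3 : σ (i, ⟨a, ha⟩) <;> simp_all

end Pool.Agent.Y651.LM
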