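import Pool.Agent.Y651.LM.Low

/-! The lower bound for deterministic algorithms. -/

open scoped Classical

namespace Pool.Agent.Y651.LM

lemma SameView.trans {V W X : Type} {Λ : Type} {G : SimpleGraph V} {x : V → Λ} {v : V}
    {G' : SimpleGraph W} {x' : W → Λ} {v' : W} {G'' : SimpleGraph X} {x'' : X → Λ} {v'' : X} {t : ℕ}
    {φ : V → W} {ψ : W → X} (h : SameView G x v G' x' v' t φ) (h' : SameView G' x' v' G'' x'' v'' t ψ) :
    SameView G x v G'' x'' v'' t (ψ ∘ φ) where
  root := by simp only [Function.comp]; rw [h.root, h'.root]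
  bij := h'.bij.comp h.bij
  adj := fun a ha b hb => by
    rw [h.adj a ha b hb, h'.adj _ (h.bij.mapsTo ha) _ (h.bij.mapsTo hb)]; rfl
  lab := fun a ha => by
    simp only [Function.comp]
    rw [h'.lab _ (h.bij.mapsTo ha), h.lab a ha]

theorem lower (hdeg : StDeg) {c : ℕ} (hc : 1 ≤ c) {t : ℕ → ℕ} (h : DetSolves strings colouring c t)
    {m L : ℕ} (hm : 2 ≤ m) (hL : 4 ≤ L) (hev : Even L) (hpow : 2 ^ L ≤ m * L) :
    L < 4 * t (m * L) + 12 := by
  by_contra hcon
  obtain ⟨A, hloc, hsol⟩ := h
  set s := t (m * L) with hs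
  set e0 : Fin m × Fin L ≃ Fin (m * L) := finProdFinEquiv with he0
  set N := necklace m L with hN
  set G : SimpleGraph (Fin (m * L)) := N.comap e0.symm with hG
  let e : G ≃g N := SimpleGraph.Iso.comap e0.symm N
  have hGF : G ∈ strings (m * L) := ⟨m, L, hm, hL, hev, rfl, hpow, ⟨e⟩⟩
  have hi0 : 0 < m := by omega
  set i : Fin m := ⟨0, hi0⟩ with hi
  have hhi : 4 * s + 4 < L := by omega
  set ρ := rotMap m L i (2 * s + 3) (4 * s + 4) hhi with hρ
  have hρi : Function.Injective ρ := rotMap_inj hhi (by omega)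
  set x : Fin (m * L) → ℕ := fun v => v.1 + 1 with hx
  set x2 : Fin (m * L) → ℕ := fun v => x (e.symm (ρ (e v))) with hx2
  have hxinj : Function.Injective x := by
    intro u v huv
    simp only [hx] at huv
    ext; omega
  have hxv : ∀ v, 1 ≤ x v ∧ x v ≤ (m * L) ^ c := by
    intro v
    refine ⟨by simp [hx], ?_⟩
    calc x v ≤ m * L := v.2
      _ = (m * L) ^ 1 := (pow_one _).symm
      _ ≤ (m * L) ^ c := Nat.pow_le_pow_right (by have := v.2; omega) hc
  have hxval : ValidId (m * L) c x := ⟨hxinj, hxv⟩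
  have hx2val : ValidId (m * L) c x2 :=
    ⟨fun u v huv => e.injective (hρi (e.symm.injective (hxinj huv))), fun v => hxv _⟩
  -- the labels on the necklace
  have hX2 : ∀ w, (x2 ∘ e.symm) w = (x ∘ e.symm) (ρ w) := fun w => by simp [hx2]
  -- lift of views
  have lift : ∀ (w w' : Fin m × Fin L) (φ : Fin m × Fin L → Fin m × Fin L),
      SameView N (x ∘ e.symm) w N (x2 ∘ e.symm) w' s φ →
      A (m * L) G x (e.symm w) = A (m * L) G x2 (e.symm w') := by
    intro w w' φ hv
    have h1 := sameView_iso e x (e.symm w) s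
    rw [RelIso.apply_symm_apply] at h1
    have h2 := sameView_iso e.symm (x2 ∘ e.symm) w' s
    have h3 : (x2 ∘ e.symm) ∘ e.symm.symm = x2 := by funext v; simp
    rw [h3] at h2
    exact hloc _ G G x x2 _ _ _ hGF hGF hxval hx2val ((h1.trans hv).trans h2)
  have hp : s + 1 < L := by omega
  have hq : 3 * s + 3 < L := by omega
  have hq1 : 3 * s + 4 < L := by omega
  have v1 := lift (i, ⟨s + 1, hp⟩) (i, ⟨s + 1, hp⟩) (shiftMap m L 0)
    (sameView_shift hL (by simp only; omega) (by simp) (by simp only; omega) _ _ (by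
      intro a a' ha1 ha2 haa
      have : a' = a := by ext; simpa using haa
      subst this
      rw [hX2]
      congr 1
      simp only [hρ, rotMap, if_true]
      ext
      · rfl
      · simp only [rot]
        simp only at ha2
        rw [if_neg (by omega), if_neg (by omega)]))
  have v2 := lift (i, ⟨3 * s + 3, hq⟩) (i, ⟨3 * s + 4, hq1⟩) (shiftMap m L 1)
    (sameView_shift hL (by simp only; omega) (by simp only) (by simp only; omega) _ _ (by
      intro a a' ha1 ha2 haa
      rw [hX2]
      congr 1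
      simp only [hρ, rotMap, if_true]
      ext
      · rfl
      · simp only [rot]
        simp only at ha1 ha2
        rw [if_neg (by omega), if_pos (by omega)]
        omega))
  -- solutions on the necklace
  have sol : ∀ y : Fin (m * L) → ℕ, ValidId (m * L) c y →
      ∀ w, allowed2 N ((A (m * L) G y) ∘ e.symm) w := by
    intro y hy w
    have h1 := hsol (m * L) G y hGF hy (e.symm w)
    have h2 : allowed2 G (A (m * L) G y) (e.symm w) := h1
    rw [allowed2_local (sameView_iso e (A (m * L) G y) (e.symm w) 2), RelIso.apply_symm_apply] at h2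
    exact h2
  have a1 := alternate hdeg hm hL _ (sol x hxval) i (s + 1) hp (by omega) (2 * s + 2) (by omega)
  have a2 := alternate hdeg hm hL _ (sol x2 hx2val) i (s + 1) hp (by omega) (2 * s + 3) (by omega)
  have q1 : (⟨s + 1 + (2 * s + 2), by omega⟩ : Fin L) = ⟨3 * s + 3, hq⟩ := by ext; simp only; omega
  have q2 : (⟨s + 1 + (2 * s + 3), by omega⟩ : Fin L) = ⟨3 * s + 4, hq1⟩ := by ext; simp only; omega
  rw [q1] at a1
  rw [q2] at a2
  have b1 := a1.2 ⟨s + 1, by omega⟩
  simp only [Function.comp] at b1 a2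
  rw [v2, v1] at b1
  obtain ⟨y, hy⟩ := a2.1 b1
  omega

end Pool.Agent.Y651.LM
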