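import Pool.Agent.Y651.LM.Defs

/-! Statements of the parts (jobs). -/

open scoped Classical
open MeasureTheory

namespace Pool.Agent.Y651.LM

/-- TIE: the sequences of coins of the vertices are distinct almost surely -/
def StTie : Prop := ∀ n : ℕ, bits n {w | ¬ Function.Injective fun (u : Fin n) (k : ℕ) => w (u, k)} = 0

/-- GEO: growth, degree and connectedness of the necklace -/
def StGeo : Prop := ∀ m L : ℕ, 2 ≤ m → 4 ≤ L →
  (necklace m L).Connected ∧ (∀ v, ((necklace m L).neighborSet v).ncard ≤ 4) ∧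
  (∀ v r, (ball (necklace m L) v r).ncard ≤ 12 * (r + 1) ^ 2)

/-- DEG: the vertices of degree two are the vertices other than the vertices `0` of the cycles -/
def StDeg : Prop := ∀ m L : ℕ, 2 ≤ m → 4 ≤ L → ∀ v : Fin m × Fin L,
  Deg2 (necklace m L) v ↔ v.2.1 ≠ 0

/-- LOGSTAR: `logStar n ≤ 2 + log log n` -/
def StLogStar : Prop := ∀ n : ℕ, logStar n ≤ 2 + Nat.log 2 (Nat.log 2 n)

end Pool.Agent.Y651.LM
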