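import Pool.Agent.Y651.LM.Loc
import Pool.Agent.Y651.LM.Stm

/-! The algorithm on the necklace. -/

open scoped Classical

namespace Pool.Agent.Y651.LM

variable {Λ : Type}

lemma necklace_adj {m L : ℕ} (hL : 4 ≤ L) {p q : Fin m × Fin L} :
    (necklace m L).Adj p q ↔ (p.1 = q.1 ∧ cyc L p.2.1 q.2.1) ∨
      (p.2.1 = 0 ∧ q.2.1 = 0 ∧ (p.1.1 + 1 = q.1.1 ∨ q.1.1 + 1 = p.1.1)) := by
  obtain ⟨i, a⟩ := p
  obtain ⟨j, b⟩ := q
  simp only [necklace, SimpleGraph.fromRel_adj, ne_eq, Prod.mk.injEq, cyc, Fin.ext_iff]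
  have := a.2
  have := b.2
  omega

lemma sub_adj (hdeg : StDeg) {m L : ℕ} (hm : 2 ≤ m) (hL : 4 ≤ L) {p q : Fin m × Fin L} :
    (sub (necklace m L)).Adj p q ↔ (p.1 = q.1 ∧ cyc L p.2.1 q.2.1) := by
  have h : (sub (necklace m L)).Adj p q ↔ (necklace m L).Adj p q ∧
    (Deg2 (necklace m L) p ∨ Deg2 (necklace m L) q) := Iff.rfl
  rw [h, hdeg m L hm hL p, hdeg m L hm hL q, necklace_adj hL]
  obtain ⟨i, a⟩ := p
  obtain ⟨j, b⟩ := q
  simp only [cyc, Fin.ext_iff]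
  omega

lemma cyc_odd {L a b : ℕ} (hL : Even L) (h : cyc L a b) : Odd (a + b) := by
  obtain ⟨c, hc⟩ := hL
  unfold cyc at h
  rcases h with h | h | h | h
  · exact ⟨a, by omega⟩
  · exact ⟨b, by omega⟩
  · refine ⟨c - 1, by omega⟩
  · refine ⟨c - 1, by omega⟩

lemma R_parity (hdeg : StDeg) {m L : ℕ} (hm : 2 ≤ m) (hL : 4 ≤ L) (hev : Even L) (p : Fin m × Fin L) :
    ∀ k q, R (sub (necklace m L)) p k q → p.1 = q.1 ∧ Even (k + p.2.1 + q.2.1) := by
  intro k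
  induction k with
  | zero => intro q h; rw [R_zero] at h; subst h; exact ⟨rfl, by simp⟩
  | succ k ih =>
    intro q h
    obtain ⟨w, hw, ha⟩ := R_succ.1 h
    obtain ⟨h1, h2⟩ := ih w hw
    rw [sub_adj hdeg hm hL] at ha
    refine ⟨h1.trans ha.1, ?_⟩
    have h3 := cyc_odd hev ha.2
    obtain ⟨x, hx⟩ := h2
    obtain ⟨y, hy⟩ := h3
    exact ⟨x + y + 1 - w.2.1, by omega⟩

lemma R_up (hdeg : StDeg) {m L : ℕ} (hm : 2 ≤ m) (hL : 4 ≤ L) (i : Fin m) (a : ℕ) (ha : a < L) :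
    ∀ k (h : a + k < L), R (sub (necklace m L)) (i, ⟨a, ha⟩) k (i, ⟨a + k, h⟩) ∧
      R (sub (necklace m L)) (i, ⟨a + k, h⟩) k (i, ⟨a, ha⟩) := by
  intro k
  induction k with
  | zero => intro h; exact ⟨R_zero.2 rfl, R_zero.2 rfl⟩
  | succ k ih =>
    intro h
    obtain ⟨h1, h2⟩ := ih (by omega)
    have hadj : (sub (necklace m L)).Adj (i, ⟨a + k, by omega⟩) (i, ⟨a + (k + 1), h⟩) := by
      rw [sub_adj hdeg hm hL]; exact ⟨rfl, Or.inl rfl⟩
    refine ⟨R_succ.2 ⟨_, h1, hadj⟩, ?_⟩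
    obtain ⟨p, hp⟩ := h2
    exact ⟨.cons hadj.symm p, by rw [SimpleGraph.Walk.length_cons, hp]⟩

lemma R_reach (hdeg : StDeg) {m L : ℕ} (hm : 2 ≤ m) (hL : 4 ≤ L) (i : Fin m) (a b : Fin L) :
    ∃ k, k < L ∧ R (sub (necklace m L)) (i, a) k (i, b) := by
  have ha := a.2
  have hb := b.2
  rcases le_total a.1 b.1 with h | h
  · refine ⟨b.1 - a.1, by omega, ?_⟩
    have := (R_up hdeg hm hL i a.1 a.2 (b.1 - a.1) (by omega)).1
    have e : (⟨a.1 + (b.1 - a.1), by omega⟩ : Fin L) = b := by ext; simp; omega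
    rw [e] at this; exact this
  · refine ⟨a.1 - b.1, by omega, ?_⟩
    have := (R_up hdeg hm hL i b.1 b.2 (a.1 - b.1) (by omega)).2
    have e : (⟨b.1 + (a.1 - b.1), by omega⟩ : Fin L) = a := by ext; simp; omega
    rw [e] at this; exact this

theorem alg_necklace (hdeg : StDeg) [LinearOrder Λ] {m L : ℕ} (hm : 2 ≤ m) (hL : 4 ≤ L)
    (hev : Even L) {s : ℕ} (hs : L ≤ s) (x : Fin m × Fin L → Λ) (hx : Function.Injective x) :
    ∀ v, allowed2 (necklace m L) (alg s (necklace m L) x) v := by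
  -- the smallest label of a cycle
  have hmin : ∀ i : Fin m, ∃ c : Fin L, ∀ b : Fin L, x (i, c) ≤ x (i, b) := by
    intro i
    have : Nonempty (Fin L) := ⟨⟨0, by omega⟩⟩
    exact Finite.exists_min fun b : Fin L => x (i, b)
  choose c hc using hmin
  have key : ∀ v : Fin m × Fin L, alg s (necklace m L) x v = decide (Even (v.2.1 + (c v.1).1)) := by
    rintro ⟨i, a⟩
    unfold alg
    rw [decide_eq_decide]
    constructor
    · rintro ⟨u, ⟨k, hk, he, hu⟩, hmn⟩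
      obtain ⟨h1, h2⟩ := R_parity hdeg hm hL hev _ k u hu
      obtain ⟨j, b⟩ := u
      obtain rfl : i = j := h1
      obtain ⟨k', hk', hr⟩ := R_reach hdeg hm hL i a (c i)
      have h3 := hmn (i, c i) ⟨k', by omega, hr⟩
      have h4 : x (i, b) = x (i, c i) := le_antisymm h3 (hc i b)
      have h5 := hx h4
      simp only [Prod.mk.injEq, true_and] at h5
      subst h5
      obtain ⟨y, hy⟩ := he
      obtain ⟨z, hz⟩ := h2
      simp only at hz ⊢
      exact ⟨z - y, by omega⟩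
    · intro he
      obtain ⟨k', hk', hr⟩ := R_reach hdeg hm hL i a (c i)
      obtain ⟨h1, h2⟩ := R_parity hdeg hm hL hev _ _ _ hr
      refine ⟨(i, c i), ⟨k', by omega, ?_, hr⟩, ?_⟩
      · obtain ⟨y, hy⟩ := he
        obtain ⟨z, hz⟩ := h2
        simp only at hz hy
        exact ⟨z - y, by omega⟩
      · rintro w ⟨j, hj, hw⟩
        obtain ⟨h3, -⟩ := R_parity hdeg hm hL hev _ j w hw
        obtain ⟨i', b⟩ := w
        obtain rfl : i = i' := h3
        exact hc i b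
  intro v u hvu hd
  have hadj : (sub (necklace m L)).Adj v u := ⟨hvu, hd⟩
  rw [sub_adj hdeg hm hL] at hadj
  rw [key v, key u, ← hadj.1, ne_eq, decide_eq_decide]
  have hodd := cyc_odd hev hadj.2
  intro h
  by_cases h1 : Even (v.2.1 + (c v.1).1)
  · obtain ⟨z, hz⟩ := h.1 h1
    obtain ⟨y, hy⟩ := h1
    obtain ⟨w, hw⟩ := hodd
    omega
  · have h2 : ¬ Even (u.2.1 + (c v.1).1) := fun h' => h1 (h.2 h')
    rw [Nat.not_even_iff_odd] at h1 h2
    obtain ⟨y, hy⟩ := h1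
    obtain ⟨z, hz⟩ := h2
    obtain ⟨w, hw⟩ := hodd
    omega

/-- the algorithm is correct on all graphs of the class -/
theorem alg_strings (hdeg : StDeg) [LinearOrder Λ] {n : ℕ} {G : SimpleGraph (Fin n)}
    (hG : G ∈ strings n) (x : Fin n → Λ) (hx : Function.Injective x) :
    ∀ v, allowed2 G (alg (Nat.log 2 n) G x) v := by
  obtain ⟨m, L, hm, hL, hev, hn, hpow, ⟨e⟩⟩ := hG
  have hs : L ≤ Nat.log 2 n := by
    apply Nat.le_log_of_pow_le (by norm_num) hpow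
  intro v
  have h1 := alg_necklace hdeg hm hL hev hs (x ∘ e.symm) (hx.comp e.symm.injective) (e v)
  rw [allowed2_local (sameView_iso e (alg (Nat.log 2 n) G x) v 2)]
  have h2 : alg (Nat.log 2 n) G x ∘ e.symm = alg (Nat.log 2 n) (necklace m L) (x ∘ e.symm) := by
    funext w
    have := alg_local (s := Nat.log 2 n) (sameView_iso e x (e.symm w) (Nat.log 2 n + 1))
    simpa using this
  rw [h2]
  exact h1

end Pool.Agent.Y651.LM
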